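import Mathlib
open Set Filter Topology PiNat
namespace Pool.Agent.H.MP_056111_lc

abbrev H := ZMod 2 × ℤ × ℤ
abbrev G := ℕ → H

def ag (n : ℕ) (x y : G) : Prop := ∀ i < n, x i = y i

lemma ag.symm {n x y} (h : ag n x y) : ag n y x := fun i hi => (h i hi).symm
lemma ag.trans {n x y z} (h : ag n x y) (h' : ag n y z) : ag n x z :=
  fun i hi => (h i hi).trans (h' i hi)
lemma ag.mono {m n x y} (h : ag n x y) (hmn : m ≤ n) : ag m x y :=
  fun i hi => h i (lt_of_lt_of_le hi hmn)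
lemma ag.add {n x y} (h : ag n x y) (g : G) : ag n (x + g) (y + g) :=
  fun i hi => by simp [h i hi]
lemma ag.cancel {n x y} {g : G} (h : ag n (x + g) (y + g)) : ag n x y :=
  fun i hi => by simpa using h i hi
lemma ag_refl (n x) : ag n x x := fun _ _ => rfl
lemma res_iff {n} {x y : G} : res x n = res y n ↔ ag n x y := res_eq_res

lemma open_iff {S : Set G} : IsOpen S ↔ ∀ z ∈ S, ∃ n, ∀ t, ag n t z → t ∈ S := by
  rw [(isTopologicalBasis_cylinders (fun _ : ℕ => H)).isOpen_iff]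
  constructor
  · intro h z hz
    obtain ⟨_, ⟨x, n, rfl⟩, h1, h2⟩ := h z hz
    exact ⟨n, fun t ht => h2 (fun i hi => (ht i hi).trans (h1 i hi))⟩
  · intro h z hz
    obtain ⟨n, hn⟩ := h z hz
    exact ⟨cylinder z n, ⟨z, n, rfl⟩, self_mem_cylinder z n, fun t ht => hn t ht⟩

lemma ag_open (n z) : IsOpen {t | ag n t z} := open_iff.mpr fun _ hx => ⟨n, fun _ ht => ht.trans hx⟩
lemma ag_closed (n z) : IsClosed {t | ag n t z} := by
  rw [← isOpen_compl_iff]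
  exact open_iff.mpr fun _ hx => ⟨n, fun _ ht h => hx (ht.symm.trans h)⟩

lemma dense_iff {C : Set G} {S : Set C} :
    Dense S ↔ ∀ z ∈ C, ∀ n, ∃ t : C, ag n t z ∧ t ∈ S := by
  rw [dense_iff_inter_open]
  constructor
  · intro h z hz n
    obtain ⟨t, h1, h2⟩ := h (Subtype.val ⁻¹' {t | ag n t z})
      ((ag_open n z).preimage continuous_subtype_val) ⟨⟨z, hz⟩, ag_refl _ _⟩
    exact ⟨t, h1, h2⟩
  · intro h U hU ⟨z, hz⟩
    obtain ⟨V, hV, rfl⟩ := isOpen_induced_iff.mp hU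
    obtain ⟨n, hn⟩ := open_iff.mp hV z hz
    obtain ⟨t, h1, h2⟩ := h z z.2 n
    exact ⟨t, hn _ h1, h2⟩

lemma meagre_of {C S : Set G}
    (h : ∀ z ∈ C, ∀ n, ∃ z' ∈ C, ag n z' z ∧ ∃ n', ∀ t ∈ C, ag n' t z' → t ∉ S) :
    IsMeagre (Subtype.val ⁻¹' S : Set C) := by
  let U : Set G := {t | ∃ z' n', ag n' t z' ∧ ∀ t ∈ C, ag n' t z' → t ∉ S}
  have hU : IsOpen U := open_iff.mpr fun x ⟨z', n', h1, h2⟩ =>
    ⟨n', fun t ht => ⟨z', n', ht.trans h1, h2⟩⟩
  have hd : Dense (Subtype.val ⁻¹' U : Set C) := by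
    rw [dense_iff]
    intro z hz n
    obtain ⟨z', h1, h2, n', h3⟩ := h z hz n
    exact ⟨⟨z', h1⟩, h2, z', n', ag_refl _ _, h3⟩
  refine mem_of_superset (residual_of_dense_open (hU.preimage continuous_subtype_val) hd) ?_
  rintro t ⟨z', n', h1, h2⟩
  exact h2 t t.2 h1

lemma not_meagre {C S : Set G} (hC : IsCompact C) {z0 : G} (hz0 : z0 ∈ C) (L : ℕ) (P : ℕ → Set G)
    (hP : ∀ N, IsOpen (P N))
    (hd : ∀ N, ∀ z ∈ C, ag L z z0 → ∀ n, ∃ t ∈ C, ag n t z ∧ t ∈ P N)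
    (hS : ∀ z ∈ C, ag L z z0 → (∀ N, z ∈ P N) → z ∈ S) :
    ¬ IsMeagre (Subtype.val ⁻¹' S : Set C) := by
  intro hm
  haveI : CompactSpace C := isCompact_iff_compactSpace.mp hC
  have h1 : ∀ N, (Subtype.val ⁻¹' (P N ∪ {t | ag L t z0}ᶜ) : Set C) ∈ residual C := by
    intro N
    refine residual_of_dense_open
      (((hP N).union (ag_closed L z0).isOpen_compl).preimage continuous_subtype_val) ?_
    rw [dense_iff]
    intro z hz n
    by_cases h : ag L z z0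
    · obtain ⟨t, ht, h2, h3⟩ := hd N z hz h n
      exact ⟨⟨t, ht⟩, h2, Or.inl h3⟩
    · exact ⟨⟨z, hz⟩, ag_refl _ _, Or.inr h⟩
  have h2 := dense_of_mem_residual (inter_mem (countable_iInter_mem.mpr h1) hm)
  obtain ⟨t, h3, h4, h5⟩ := dense_iff.mp h2 z0 hz0 L
  refine h5 (hS t t.2 h3 fun N => ?_)
  exact (mem_iInter.mp h4 N).resolve_right (fun h => h h3)

lemma ex_phi : ∃ φ : ℕ → Finset (List H), Function.Surjective φ := exists_surjective_nat _

noncomputable def dec (x : ℤ) : Finset (List H) := ex_phi.choose (Nat.unpair (Nat.sqrt x.toNat)).1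

lemma dec_spec (τ : Finset (List H)) (M : ℕ) : ∃ c : ℤ, ∀ x : ℤ, |x| ≤ M → dec (x + c) = τ := by
  obtain ⟨i, hi⟩ := ex_phi.choose_spec τ
  have hr : M ≤ Nat.pair i M := Nat.right_le_pair _ _
  set r := Nat.pair i M with hrd
  refine ⟨(r : ℤ) * r + r, fun x hx => ?_⟩
  have h1 := abs_le.mp hx
  have h2 : Nat.sqrt (x + ((r : ℤ) * r + r)).toNat = r := by
    symm
    rw [Nat.eq_sqrt]
    have h3 : (0 : ℤ) ≤ x + ((r : ℤ) * r + r) := by nlinarith [mul_self_nonneg (r : ℤ)]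
    constructor
    · zify
      rw [Int.toNat_of_nonneg h3]
      omega
    · zify
      rw [Int.toNat_of_nonneg h3]
      nlinarith
  unfold dec
  rw [h2, hrd, Nat.unpair_pair]
  exact hi

lemma fin_res {V : Set G} (hV : IsCompact V) (n : ℕ) : ((fun z => res z n) '' V).Finite := by
  obtain ⟨s, hs⟩ := hV.elim_finite_subcover (fun z : G => {t | ag n t z}) (fun z => ag_open n z)
    (fun z _ => mem_iUnion.mpr ⟨z, ag_refl _ _⟩)
  refine ((s.finite_toSet).image (fun z => res z n)).subset ?_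
  rintro _ ⟨v, hv, rfl⟩
  obtain ⟨z, hz, h⟩ := mem_iUnion₂.mp (hs hv)
  exact ⟨z, hz, (res_iff.mpr h).symm⟩

lemma step {V : Set G} (hV : IsCompact V) (g : G) (n : ℕ) :
    ∃ c : ℤ, ∀ z ∈ V, ∀ t, res t n ∈ dec ((z n).2.2 + c) ↔ ∃ v ∈ V, ag n t (v + g) := by
  have h1 : IsCompact ((fun z => z + g) '' V) := hV.image (continuous_id.add continuous_const)
  have h2 : IsCompact ((fun z : G => (z n).2.2) '' V) := hV.image (by fun_prop)
  obtain ⟨M, hM⟩ := (h2.finite_of_discrete.image (fun x : ℤ => x.natAbs)).bddAbove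
  obtain ⟨c, hc⟩ := dec_spec (fin_res h1 n).toFinset M
  refine ⟨c, fun z hz t => ?_⟩
  have h3 : ((z n).2.2).natAbs ≤ M := hM ⟨_, ⟨z, hz, rfl⟩, rfl⟩
  rw [hc _ (by rw [← Int.natCast_natAbs]; exact_mod_cast h3), Finite.mem_toFinset]
  constructor
  · rintro ⟨_, ⟨v, hv, rfl⟩, h⟩
    exact ⟨v, hv, (res_iff.mp h).symm⟩
  · rintro ⟨v, hv, h⟩
    exact ⟨_, ⟨v, hv, rfl⟩, (res_iff.mpr h).symm⟩

noncomputable def gg (c : G → ℕ → ℤ) : ℕ → H
  | n => (0, 0, c (fun i => if _h : i < n then gg c i else 0) n)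
termination_by n => n

lemma coding {V : Set G} (hV : IsCompact V) :
    ∃ g : G, ∀ z ∈ V, ∀ n t, res t n ∈ dec ((z + g) n).2.2 ↔ ∃ v ∈ V, ag n t (v + g) := by
  choose c hc using step hV
  refine ⟨gg c, fun z hz n t => ?_⟩
  have h1 : ((z + gg c) n).2.2 = (z n).2.2 + c (fun i => if _h : i < n then gg c i else 0) n := by
    rw [Pi.add_apply, gg]; rfl
  rw [h1, hc _ n z hz]
  have h2 : ∀ v : G, ag n (v + fun i => if _h : i < n then gg c i else 0) (v + gg c) := by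
    intro v i hi
    simp [hi]
  constructor
  · rintro ⟨v, hv, h⟩
    exact ⟨v, hv, h.trans (h2 v)⟩
  · rintro ⟨v, hv, h⟩
    exact ⟨v, hv, h.trans (h2 v).symm⟩

end Pool.Agent.H.MP_056111_lc
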