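import Pool.Agent.H.MP_056111_lc.Core
open Set Filter Topology PiNat
namespace Pool.Agent.H.MP_056111_lc

def e (k : ℕ) : G := Pi.single k (1, 0, 0)

lemma e_ne {k i : ℕ} (h : i ≠ k) : e k i = 0 := Pi.single_eq_of_ne h _
lemma e_self (k : ℕ) : e k k = (1, 0, 0) := Pi.single_eq_same _ _
lemma e_snd (k i : ℕ) : (e k i).2 = 0 := by
  by_cases h : i = k
  · rw [h, e_self]; rfl
  · rw [e_ne h]; rfl
lemma e_add (k : ℕ) : e k + e k = 0 := by
  funext i
  by_cases h : i = k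
  · rw [h, Pi.add_apply, e_self, Pi.zero_apply]; decide
  · simp [e_ne h]
lemma ag_e {n k : ℕ} (h : n ≤ k) (z : G) : ag n (z + e k) z := fun i hi => by
  simp [e_ne (show i ≠ k by omega)]

def F : Set G := {z | ∀ n, res z n ∈ dec (z n).2.2}

def U1 (N : ℕ) : Set G := {z | ∃ n ≥ N, ∀ t : G, res t (n + 1) ∈ dec (z (n + 1)).2.2 →
  (ag n t z ∨ ∃ k < n, ag n t (z + e k)) → (t n).2.1 ≤ (z n).2.1}

def U2 (N : ℕ) : Set G := {z | ∃ k ≥ N, ∃ n, res (z + e k) n ∉ dec (z n).2.2}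

def A1 : Set G := F ∩ ⋂ N, U1 N
def A2 : Set G := F ∩ ⋂ N, U2 N

lemma notF {z : G} (hz : z ∉ F) : ∃ n, ∀ t, ag n t z → t ∉ F := by
  simp only [F, mem_ofPred_eq, not_forall] at hz
  obtain ⟨n, hn⟩ := hz
  refine ⟨n + 1, fun t ht h => hn ?_⟩
  have h1 := h n
  rwa [res_iff.mpr (ht.mono (Nat.le_succ n)), ht n (Nat.lt_succ_self n)] at h1

lemma F_closed : IsClosed F := by
  rw [← isOpen_compl_iff]
  exact open_iff.mpr fun z hz => notF hz

lemma U1_open (N) : IsOpen (U1 N) := by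
  refine open_iff.mpr ?_
  rintro z ⟨n, hn, h⟩
  refine ⟨n + 2, fun x hx => ⟨n, hn, fun t h1 h2 => ?_⟩⟩
  rw [hx (n + 1) (by omega)] at h1
  rw [hx n (by omega)]
  refine h t h1 ?_
  rcases h2 with h2 | ⟨k, hk, h2⟩
  · exact Or.inl (h2.trans (hx.mono (by omega)))
  · exact Or.inr ⟨k, hk, h2.trans ((hx.mono (by omega)).add _)⟩

lemma U2_open (N) : IsOpen (U2 N) := by
  refine open_iff.mpr ?_
  rintro z ⟨k, hk, n, h⟩
  refine ⟨n + 1, fun x hx => ⟨k, hk, n, ?_⟩⟩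
  rwa [hx n (by omega), res_iff.mpr ((hx.mono (Nat.le_succ n)).add _)]

lemma compact_of {C : Set G} (h1 : ∀ z ∉ C, ∃ n, ∀ t, ag n t z → t ∉ C)
    (h2 : ∀ z ∈ C, ∀ n : ℕ, (z n).2.1 ∈ Icc (0 : ℤ) n ∧ (z n).2.2 = 0) : IsCompact C := by
  have hc : IsClosed C := by
    rw [← isOpen_compl_iff]
    exact open_iff.mpr h1
  have hK : IsCompact {z : G | ∀ n : ℕ, z n ∈ (univ : Set (ZMod 2)) ×ˢ (Icc (0 : ℤ) n ×ˢ ({0} : Set ℤ))} :=
    isCompact_pi_infinite fun n =>
      (finite_univ.prod ((finite_Icc _ _).prod (finite_singleton _))).isCompact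
  exact hK.of_isClosed_subset hc fun z hz n => ⟨trivial, h2 z hz n⟩

def C2 : Set G := {z | ∀ n, (z n).2 = 0}

lemma C2_compact : IsCompact C2 := by
  refine compact_of (fun z hz => ?_) (fun z hz n => by simp [hz n])
  simp only [C2, mem_ofPred_eq, not_forall] at hz
  obtain ⟨n, hn⟩ := hz
  exact ⟨n + 1, fun t ht h => hn (ht n (by omega) ▸ h n)⟩

lemma A2_meagre (g : G) : IsMeagre (Subtype.val ⁻¹' {z | z + g ∈ A2} : Set C2) := by
  refine meagre_of fun z hz n => ?_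
  by_cases h : ∀ t ∈ C2, ag n t z → t + g ∈ F
  · refine ⟨z, hz, ag_refl _ _, n, fun t ht htz hA => ?_⟩
    obtain ⟨k, hk, m, hm⟩ := mem_iInter.mp hA.2 n
    have h1 : t + e k ∈ C2 := fun i => by simp [ht i, e_snd]
    have h2 := h _ h1 ((ag_e hk t).trans htz) m
    apply hm
    rw [add_right_comm]
    simpa [e_snd] using h2
  · push Not at h
    obtain ⟨t, ht, h1, h2⟩ := h
    obtain ⟨m, hm⟩ := notF h2
    exact ⟨t, ht, h1, m, fun x _ hx hA => hm _ (hx.add g) hA.1⟩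

def j (z : G) (n : ℕ) : ℤ := ∑ k ∈ Finset.range n, ((z k).1.val : ℤ)

lemma j_congr {n : ℕ} {z t : G} (h : ag n z t) : j z n = j t n :=
  Finset.sum_congr rfl fun i hi => by rw [h i (Finset.mem_range.mp hi)]
lemma j_nonneg (z n) : 0 ≤ j z n := Finset.sum_nonneg fun _ _ => Int.natCast_nonneg _
lemma j_le (z n) : j z n ≤ n := by
  have : ∀ k ∈ Finset.range n, (((z k).1.val : ℕ) : ℤ) ≤ 1 := fun k _ => by
    have := ZMod.val_lt (z k).1
    omega
  simpa [j] using Finset.sum_le_card_nsmul _ _ _ this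
lemma w_le {z : G} {k : ℕ} (h : (z k).1 = 0) (i : ℕ) :
    ((z i).1.val : ℤ) ≤ (((z + e k) i).1.val : ℤ) := by
  by_cases hi : i = k
  · rw [hi, h, ZMod.val_zero]; exact Int.natCast_nonneg _
  · simp [e_ne hi]
lemma j_mono {z : G} {k : ℕ} (h : (z k).1 = 0) (n : ℕ) : j z n ≤ j (z + e k) n :=
  Finset.sum_le_sum fun i _ => w_le h i
lemma j_lt {z : G} {k : ℕ} (h : (z k).1 = 0) {n : ℕ} (hn : k < n) : j z n < j (z + e k) n := by
  refine Finset.sum_lt_sum (fun i _ => w_le h i) ⟨k, Finset.mem_range.mpr hn, ?_⟩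
  rw [Pi.add_apply, e_self, Prod.fst_add, h]
  decide

def C1 : Set G := {z | ∀ n, (z n).2.1 ∈ Icc 0 (j z n) ∧ (z n).2.2 = 0}

lemma C1_compact : IsCompact C1 := by
  refine compact_of (fun z hz => ?_)
    (fun z hz n => ⟨⟨(hz n).1.1, (hz n).1.2.trans (j_le z n)⟩, (hz n).2⟩)
  simp only [C1, mem_ofPred_eq, not_forall] at hz
  obtain ⟨n, hn⟩ := hz
  refine ⟨n + 1, fun t ht h => hn ?_⟩
  rw [← ht n (by omega), ← j_congr (ht.mono (Nat.le_succ n))]
  exact h n

def ext (z : G) (n : ℕ) (b : ℤ) : G := fun i => if i < n then z i else if i = n then (0, b, 0) else 0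

lemma ext_ag (z n b) : ag n (ext z n b) z := fun i hi => by simp [ext, hi]
lemma ext_self (z n b) : ext z n b n = (0, b, 0) := by simp [ext]
lemma ext_mem {z : G} {n : ℕ} {b : ℤ} (h : ∀ i < n, (z i).2.1 ∈ Icc 0 (j z i) ∧ (z i).2.2 = 0)
    (hb : b ∈ Icc 0 (j z n)) : ext z n b ∈ C1 := by
  intro i
  rcases lt_trichotomy i n with hi | rfl | hi
  · rw [ext_ag z n b i hi, j_congr ((ext_ag z n b).mono hi.le)]
    exact h i hi
  · rw [ext_self, j_congr (ext_ag z i b)]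
    exact ⟨hb, rfl⟩
  · have : ext z n b i = 0 := by simp [ext, hi.not_gt, hi.ne']
    rw [this]
    exact ⟨⟨le_rfl, j_nonneg _ _⟩, rfl⟩

lemma A1_meagre (g : G) : IsMeagre (Subtype.val ⁻¹' {z | z + g ∈ A1} : Set C1) := by
  refine meagre_of fun z hz n => ?_
  by_cases h : ∀ t ∈ C1, ag n t z → t + g ∈ F
  · refine ⟨ext z n 0, ext_mem (fun i _ => hz i) ⟨le_rfl, j_nonneg _ _⟩, ext_ag _ _ _, n + 1,
      fun t ht htz hA => ?_⟩
    obtain ⟨m, hm, h1⟩ := mem_iInter.mp hA.2 (n + 1)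
    have h0 : (t n).1 = 0 := by rw [htz n (by omega), ext_self]
    have h2 : ext (t + e n) m (j (t + e n) m) ∈ C1 := by
      refine ext_mem (fun i _ => ?_) ⟨j_nonneg _ _, le_rfl⟩
      have h3 : ((t + e n) i).2 = (t i).2 := by simp [e_snd]
      rw [h3]
      exact ⟨⟨(ht i).1.1, (ht i).1.2.trans (j_mono h0 i)⟩, (ht i).2⟩
    have h3 := h _ h2 (((ext_ag _ _ _).mono (by omega)).trans ((ag_e le_rfl t).trans
      ((htz.mono (by omega)).trans (ext_ag _ _ _)))) (m + 1)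
    have h4 := h1 (ext (t + e n) m (j (t + e n) m) + g)
      (by simpa [(h2 (m + 1)).2, (ht (m + 1)).2] using h3)
      (Or.inr ⟨n, hm, by rw [add_right_comm]; exact (ext_ag _ _ _).add g⟩)
    have h5 := (ht m).1.2
    have h6 := j_lt h0 (show n < m from hm)
    simp only [Pi.add_apply, ext_self, Prod.snd_add, Prod.fst_add] at h4
    omega
  · push Not at h
    obtain ⟨t, ht, h1, h2⟩ := h
    obtain ⟨m, hm⟩ := notF h2
    exact ⟨t, ht, h1, m, fun x _ hx hA => hm _ (hx.add g) hA.1⟩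

lemma union_not {C : Set G} (hC : IsCompact C) (hne : C.Nonempty) :
    ∃ g : G, ¬ IsMeagre (Subtype.val ⁻¹' {z | z + g ∈ A1 ∪ A2} : Set C) := by
  by_cases h : ∀ N, ∀ z ∈ C, ∀ n, ∃ t ∈ C, ag n t z ∧ ∃ k ≥ N, t + e k ∉ C
  · obtain ⟨g, hg⟩ := coding hC
    obtain ⟨z0, hz0⟩ := hne
    refine ⟨g, not_meagre hC hz0 0 (fun N => {z | z + g ∈ U2 N})
      (fun N => (U2_open N).preimage (continuous_id.add continuous_const)) ?_ ?_⟩
    · intro N z hz _ n
      obtain ⟨t, ht, h1, k, hk, h2⟩ := h N z hz n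
      obtain ⟨m, hm⟩ := open_iff.mp hC.isClosed.isOpen_compl _ h2
      refine ⟨t, ht, h1, k, hk, m, ?_⟩
      rw [hg t ht]
      rintro ⟨v, hv, h3⟩
      rw [add_right_comm] at h3
      exact hm v h3.cancel.symm hv
    · intro z hz _ h1
      exact Or.inr ⟨fun n => (hg z hz n _).mpr ⟨z, hz, ag_refl _ _⟩, mem_iInter.mpr h1⟩
  · push Not at h
    obtain ⟨N0, z0, hz0, n0, h⟩ := h
    set L := max N0 n0 with hL
    have hV : IsCompact (C ∩ {t | ag L t z0}) := hC.inter_right (ag_closed L z0)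
    obtain ⟨g, hg⟩ := coding hV
    refine ⟨g, not_meagre hC hz0 L (fun N => {z | z + g ∈ U1 N})
      (fun N => (U1_open N).preimage (continuous_id.add continuous_const)) ?_ ?_⟩
    · intro N z hz hzL n
      set m := max (max N n) L with hm
      have hW : IsCompact (C ∩ {t | ag m t z}) := hC.inter_right (ag_closed m z)
      obtain ⟨x, ⟨hx, hxz⟩, hmax⟩ := hW.exists_isMaxOn ⟨z, hz, ag_refl _ _⟩
        (f := fun t : G => (t m).2.1) (by fun_prop)
      have hxL : ag L x z0 := (ag.mono hxz (by omega)).trans hzL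
      refine ⟨x, hx, ag.mono hxz (by omega), m, by omega, fun t h1 h2 => ?_⟩
      obtain ⟨v, ⟨hv, hvL⟩, h3⟩ := (hg x ⟨hx, hxL⟩ _ _).mp h1
      rw [h3 m (by omega)]
      suffices hs : (v m).2.1 ≤ (x m).2.1 by
        simp only [Pi.add_apply, Prod.snd_add, Prod.fst_add]
        omega
      have h4 : ag m (v + g) t := (h3.mono (by omega)).symm
      rcases h2 with h2 | ⟨k, hk, h2⟩
      · exact hmax ⟨hv, (h4.trans h2).cancel.trans hxz⟩
      · rw [add_right_comm] at h2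
        have h5 := (h4.trans h2).cancel
        by_cases hkL : k < L
        · exfalso
          have h6 := h5 k hk
          rw [hvL k hkL, Pi.add_apply, hxL k hkL, e_self] at h6
          have h7 := congrArg Prod.fst h6
          simp at h7
        · have h6 : v + e k ∈ C := h v hv (ag.mono hvL (by omega)) k (by omega)
          have h7 : ag m (v + e k) x := by
            have := h5.add (e k)
            rwa [add_assoc, e_add, add_zero] at this
          have h8 : ((v + e k) m).2.1 ≤ (x m).2.1 := hmax ⟨h6, h7.trans hxz⟩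
          simpa [e_snd] using h8
    · intro z hz hzL h1
      exact Or.inl ⟨fun n => (hg z ⟨hz, hzL⟩ n _).mpr ⟨z, ⟨hz, hzL⟩, ag_refl _ _⟩,
        mem_iInter.mpr h1⟩

end Pool.Agent.H.MP_056111_lc
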